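import Mathlib
import Pool.Agent.Results.MP_3c540c_co.OddMultiples

/-!
# MP_48d738_co: no odd multiplier is universal

For every odd `k` there are a bridgeless graph (the Petersen graph) and an admissible eulerian
weight with values in `k ℤ` which has no faithful circuit cover.  The statement is the body of the
frozen statement of the problem at `k`.
-/

set_option autoImplicit false
set_option linter.unusedSectionVars false

open Finset

namespace Pool.Agent.Results.MP_48d738_co.NoOddMultiplier

open Pool.Agent.Results.MP_3c540c_co.OddMultiples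

/-- Like `no_cover`, for families of edge sets whose degrees are `0` or `2`. -/
theorem no_cover_deg {V E : Type} [Fintype V] [DecidableEq V] [Fintype E] [DecidableEq E]
    {G : MGraph V E} (S : PetersenSubdivision G) (k : ℕ) (hk : Odd k) (χ : Finset E → ℕ)
    (hχ : ∀ C, χ C ≠ 0 → ∀ v, (inc G C v).card = 0 ∨ (inc G C v).card = 2)
    (h : ∀ a, ∑ C ∈ univ.filter (fun C : Finset E => a ∈ C), χ C = wt S k a) : False := by
  have hst := sum_t S k χ h
  have hC : ∀ C, χ C ≠ 0 → ∀ a ∈ C, ∃ f i, i < S.len f ∧ S.e f i = a := by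
    intro C hCχ a ha
    apply wt_ne_zero S k a
    rw [← h a]
    have h1 := Finset.single_le_sum (f := χ) (s := univ.filter (fun C : Finset E => a ∈ C))
      (fun _ _ => Nat.zero_le _) (mem_filter.mpr ⟨mem_univ C, ha⟩)
    omega
  have hdeg : ∀ C, χ C ≠ 0 → ∀ v, (inc G C v).card = 0 ∨ (inc G C v).card = 2 :=
    fun C hCχ => hχ C hCχ
  -- tightness
  have tight1 : ∀ C, χ C ≠ 0 → ∀ i, t S C (1, i) = t S C (0, i) + t S C (0, i + 4) := by
    intro C hCχ i
    have h1 : ∀ D ∈ (univ : Finset (Finset E)),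
        χ D * t S D (1, i) ≤ χ D * (t S D (0, i) + t S D (0, i + 4)) := by
      intro D _
      by_cases hD : χ D = 0
      · rw [hD]; simp
      · apply Nat.mul_le_mul_left
        have h2 := deg_outer S D (hdeg D hD) (hC D hD) i
        have h3 := t_le S D (1, i)
        omega
    have h2 : ∑ D : Finset E, χ D * t S D (1, i)
        = ∑ D : Finset E, χ D * (t S D (0, i) + t S D (0, i + 4)) := by
      simp only [mul_add]
      rw [Finset.sum_add_distrib, hst, hst, hst, c0, c0, c1]
      ring
    have h3 := (Finset.sum_eq_sum_iff_of_le h1).mp h2 C (mem_univ C)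
    exact Nat.eq_of_mul_eq_mul_left (Nat.pos_of_ne_zero hCχ) h3
  have tight2 : ∀ C, χ C ≠ 0 → ∀ i, t S C (1, i) = t S C (2, i) + t S C (2, i + 3) := by
    intro C hCχ i
    have h1 : ∀ D ∈ (univ : Finset (Finset E)),
        χ D * t S D (1, i) ≤ χ D * (t S D (2, i) + t S D (2, i + 3)) := by
      intro D _
      by_cases hD : χ D = 0
      · rw [hD]; simp
      · apply Nat.mul_le_mul_left
        have h2 := deg_inner S D (hdeg D hD) (hC D hD) i
        have h3 := t_le S D (1, i)
        omega
    have h2 : ∑ D : Finset E, χ D * t S D (1, i)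
        = ∑ D : Finset E, χ D * (t S D (2, i) + t S D (2, i + 3)) := by
      simp only [mul_add]
      rw [Finset.sum_add_distrib, hst, hst, hst, c2, c2, c1]
      ring
    have h3 := (Finset.sum_eq_sum_iff_of_le h1).mp h2 C (mem_univ C)
    exact Nat.eq_of_mul_eq_mul_left (Nat.pos_of_ne_zero hCχ) h3
  have htot : ∑ C : Finset E, χ C * (t S C (0, 0) + t S C (0, 1) + t S C (0, 2) + t S C (0, 3)
      + t S C (0, 4)) = 5 * k := by
    simp only [mul_add]
    rw [Finset.sum_add_distrib, Finset.sum_add_distrib, Finset.sum_add_distrib,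
      Finset.sum_add_distrib, hst, hst, hst, hst, hst, c0, c0, c0, c0, c0]
    ring
  have heven : Even (5 * k) := by
    rw [← htot]
    refine Finset.even_sum _ fun C _ => ?_
    by_cases hCχ : χ C = 0
    · rw [hCχ]; simp
    · exact (alt_even (fun i => t S C (0, i)) (fun i => t S C (2, i)) (fun i => t S C (1, i))
        (fun i => t_le S C _) (fun i => t_le S C _) (fun i => t_le S C _)
        (tight1 C hCχ) (tight2 C hCχ)).mul_left _
  rw [Nat.even_mul] at heven
  rcases heven with h5 | h5
  · exact absurd h5 (by decide)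
  · exact (Nat.not_even_iff_odd.mpr hk) h5


/-- The Petersen graph as a simple graph. -/
def P : SimpleGraph PV where
  Adj u v := ∃ f : PE, s(src f, tgt f) = s(u, v)
  symm := ⟨by
    rintro u v ⟨f, hf⟩
    exact ⟨f, by rw [hf, Sym2.eq_swap]⟩⟩
  loopless := ⟨by
    rintro u ⟨f, hf⟩
    rw [Sym2.eq_iff] at hf
    rcases hf with hf | hf
    · exact src_ne_tgt f (hf.1.trans hf.2.symm)
    · exact src_ne_tgt f (hf.1.trans hf.2.symm)⟩

instance : DecidableRel P.Adj := fun u v =>
  inferInstanceAs (Decidable (∃ f : PE, s(src f, tgt f) = s(u, v)))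

/-- The weight `k * w10`. -/
def W (k : ℕ) (a : Sym2 PV) : ℕ := ∑ f : PE, if s(src f, tgt f) = a then k * c f else 0

theorem sym2_simple (f g : PE) (h : s(src f, tgt f) = s(src g, tgt g)) : f = g := by
  rw [Sym2.eq_iff] at h
  exact petersen_simple f g h

theorem W_edge (k : ℕ) (f : PE) : W k s(src f, tgt f) = k * c f := by
  unfold W
  rw [Finset.sum_eq_single f]
  · simp
  · intro g _ hg
    rw [if_neg]
    intro h
    exact hg (sym2_simple g f h)
  · intro h
    exact absurd (mem_univ f) h

theorem deg_four : ∀ v : PV, ∑ f : PE,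
    c f * ((univ.filter (fun u : PV => (∃ g : PE, s(src g, tgt g) = s(v, u)))).filter
      (fun u => s(src f, tgt f) = s(v, u))).card = 4 := by
  decide

theorem W_eulerian (k : ℕ) (v : PV) : Even (∑ u ∈ P.neighborFinset v, W k s(v, u)) := by
  have h1 : P.neighborFinset v = univ.filter (fun u : PV => ∃ g : PE, s(src g, tgt g) = s(v, u)) := by
    ext u
    rw [SimpleGraph.mem_neighborFinset, mem_filter]
    exact ⟨fun h => ⟨mem_univ _, h⟩, fun h => h.2⟩
  unfold W
  rw [Finset.sum_comm, h1]
  have h2 : ∀ f : PE, (∑ u ∈ univ.filter (fun u : PV => ∃ g : PE, s(src g, tgt g) = s(v, u)),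
      if s(src f, tgt f) = s(v, u) then k * c f else 0) = k * (c f *
      ((univ.filter (fun u : PV => (∃ g : PE, s(src g, tgt g) = s(v, u)))).filter
      (fun u => s(src f, tgt f) = s(v, u))).card) := by
    intro f
    rw [← Finset.sum_filter, Finset.sum_const, smul_eq_mul]
    ring
  rw [Finset.sum_congr rfl (fun f _ => h2 f), ← Finset.mul_sum, deg_four]
  exact (by decide : Even 4).mul_left k

theorem N_le (X : Finset PV) (g : PE) : N trivialSubdivision X g ≤
    (((univ : Finset (PV × PV)).filter (fun p => p.1 ∈ X ∧ p.2 ∉ X ∧ P.Adj p.1 p.2)).filter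
      (fun p => s(src g, tgt g) = s(p.1, p.2))).card := by
  have h0 : N trivialSubdivision X g
      = if trivialSubdivision.e g 0 ∈ cut petersen X then 1 else 0 := by
    unfold N
    exact Finset.sum_range_one _
  rw [h0]
  split_ifs with h
  · rw [mem_cut trivialSubdivision X g 0 (Nat.one_pos)] at h
    have h1 : ¬ (src g ∈ X ↔ tgt g ∈ X) := h
    apply Finset.card_pos.mpr
    by_cases h2 : src g ∈ X
    · have h3 : tgt g ∉ X := fun h3 => h1 ⟨fun _ => h3, fun _ => h2⟩
      refine ⟨(src g, tgt g), ?_⟩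
      rw [mem_filter, mem_filter]
      exact ⟨⟨mem_univ _, h2, h3, g, rfl⟩, rfl⟩
    · have h3 : tgt g ∈ X := by
        by_contra h3
        exact h1 ⟨fun h4 => absurd h4 h2, fun h4 => absurd h4 h3⟩
      refine ⟨(tgt g, src g), ?_⟩
      rw [mem_filter, mem_filter]
      exact ⟨⟨mem_univ _, h3, h2, g, Sym2.eq_swap⟩, Sym2.eq_swap⟩
  · exact Nat.zero_le _

theorem one_le_N (X : Finset PV) (x y : PV) (hx : x ∈ X) (hy : y ∉ X) (f : PE)
    (hf : s(src f, tgt f) = s(x, y)) : 1 ≤ N trivialSubdivision X f := by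
  have h0 : N trivialSubdivision X f
      = if trivialSubdivision.e f 0 ∈ cut petersen X then 1 else 0 := by
    unfold N
    exact Finset.sum_range_one _
  rw [h0, if_pos]
  rw [mem_cut trivialSubdivision X f 0 (Nat.one_pos)]
  show ¬ (src f ∈ X ↔ tgt f ∈ X)
  rw [Sym2.eq_iff] at hf
  rcases hf with ⟨h1, h2⟩ | ⟨h1, h2⟩
  · rw [h1, h2]; tauto
  · rw [h1, h2]; tauto

theorem W_admissible (k : ℕ) (X : Finset PV) (x y : PV) (hx : x ∈ X) (hy : y ∉ X)
    (hxy : P.Adj x y) : 2 * W k s(x, y) ≤
      ∑ p ∈ (Finset.univ : Finset (PV × PV)).filter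
        (fun p => p.1 ∈ X ∧ p.2 ∉ X ∧ P.Adj p.1 p.2), W k s(p.1, p.2) := by
  obtain ⟨f, hf⟩ := hxy
  rw [← hf, W_edge]
  unfold W
  rw [Finset.sum_comm]
  have h2 : ∀ g : PE, (∑ p ∈ (univ : Finset (PV × PV)).filter
      (fun p => p.1 ∈ X ∧ p.2 ∉ X ∧ P.Adj p.1 p.2),
      if s(src g, tgt g) = s(p.1, p.2) then k * c g else 0) = k * (c g *
      (((univ : Finset (PV × PV)).filter (fun p => p.1 ∈ X ∧ p.2 ∉ X ∧ P.Adj p.1 p.2)).filter
      (fun p => s(src g, tgt g) = s(p.1, p.2))).card) := by
    intro g
    rw [← Finset.sum_filter, Finset.sum_const, smul_eq_mul]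
    ring
  rw [Finset.sum_congr rfl (fun g _ => h2 g), ← Finset.mul_sum]
  have h3 := two_le_total trivialSubdivision X f (one_le_N X x y hx hy f hf)
  calc 2 * (k * c f) = k * (2 * c f) := by ring
    _ ≤ k * ∑ g : PE, c g * N trivialSubdivision X g := Nat.mul_le_mul_left k h3
    _ ≤ _ := Nat.mul_le_mul_left k
      (Finset.sum_le_sum fun g _ => Nat.mul_le_mul_left _ (N_le X g))

/-- The edge set of a closed walk. -/
def ES {v : PV} (p : P.Walk v v) : Finset PE :=
  univ.filter (fun f => s(src f, tgt f) ∈ p.edges)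

theorem ES_deg {v : PV} (p : P.Walk v v) (hp : p.IsCycle) (x : PV) :
    (inc petersen (ES p) x).card = 0 ∨ (inc petersen (ES p) x).card = 2 := by
  by_cases hx : x ∈ p.support
  · right
    have h1 := hp.ncard_neighborSet_toSubgraph_eq_two hx
    have h2 : p.toSubgraph.neighborSet x
        = ((univ.filter (fun u : PV => s(x, u) ∈ p.edges) : Finset PV) : Set PV) := by
      ext u
      rw [SimpleGraph.Subgraph.mem_neighborSet, Finset.mem_coe, mem_filter,
        ← SimpleGraph.Subgraph.mem_edgeSet, SimpleGraph.Walk.mem_edges_toSubgraph]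
      exact ⟨fun h => ⟨mem_univ _, h⟩, fun h => h.2⟩
    rw [h2, Set.ncard_coe_finset] at h1
    rw [← h1]
    refine Finset.card_bij (fun f _ => if src f = x then tgt f else src f) ?_ ?_ ?_
    · intro f hf
      unfold inc ES at hf
      rw [mem_filter, mem_filter] at hf
      obtain ⟨⟨-, hf1⟩, hf2⟩ := hf
      have hf3 : x = src f ∨ x = tgt f := Sym2.mem_iff.mp hf2
      rw [mem_filter]
      refine ⟨mem_univ _, ?_⟩
      by_cases h3 : src f = x
      · rw [if_pos h3, ← h3]; exact hf1
      · rw [if_neg h3]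
        rcases hf3 with h4 | h4
        · exact absurd h4.symm h3
        · rw [h4, Sym2.eq_swap]; exact hf1
    · intro f hf g hg h
      unfold inc at hf hg
      have hf3 : x = src f ∨ x = tgt f := Sym2.mem_iff.mp (mem_filter.mp hf).2
      have hg3 : x = src g ∨ x = tgt g := Sym2.mem_iff.mp (mem_filter.mp hg).2
      apply petersen_simple f g
      by_cases h3 : src f = x <;> by_cases h4 : src g = x
      · rw [if_pos h3, if_pos h4] at h
        exact Or.inl ⟨h3.trans h4.symm, h⟩
      · rw [if_pos h3, if_neg h4] at h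
        rcases hg3 with h5 | h5
        · exact absurd h5.symm h4
        · exact Or.inr ⟨h3.trans h5, h⟩
      · rw [if_neg h3, if_pos h4] at h
        rcases hf3 with h5 | h5
        · exact absurd h5.symm h3
        · exact Or.inr ⟨h, h5.symm.trans h4.symm⟩
      · rw [if_neg h3, if_neg h4] at h
        rcases hf3 with h5 | h5
        · exact absurd h5.symm h3
        · rcases hg3 with h6 | h6
          · exact absurd h6.symm h4
          · exact Or.inl ⟨h, h5.symm.trans h6⟩
    · intro u hu
      rw [mem_filter] at hu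
      have h3 : s(x, u) ∈ P.edgeSet := p.edges_subset_edgeSet hu.2
      rw [SimpleGraph.mem_edgeSet] at h3
      obtain ⟨f, hf⟩ := h3
      refine ⟨f, ?_, ?_⟩
      · unfold inc ES
        rw [mem_filter, mem_filter]
        refine ⟨⟨mem_univ _, by rw [hf]; exact hu.2⟩, ?_⟩
        show x ∈ s(src f, tgt f)
        rw [hf]
        exact Sym2.mem_mk_left _ _
      · have hne : x ≠ u := by
          intro h
          subst h
          rw [Sym2.eq_iff] at hf
          rcases hf with hf | hf
          · exact src_ne_tgt f (hf.1.trans hf.2.symm)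
          · exact src_ne_tgt f (hf.1.trans hf.2.symm)
        rw [Sym2.eq_iff] at hf
        rcases hf with ⟨h1, h2⟩ | ⟨h1, h2⟩
        · rw [if_pos h1]; exact h2
        · rw [if_neg (fun h => hne (h.symm.trans h1))]; exact h1
  · left
    rw [Finset.card_eq_zero]
    apply Finset.eq_empty_of_forall_notMem
    intro f hf
    unfold inc ES at hf
    rw [mem_filter, mem_filter] at hf
    obtain ⟨⟨-, hf1⟩, hf2⟩ := hf
    have hf3 : x = src f ∨ x = tgt f := Sym2.mem_iff.mp hf2
    rcases hf3 with h | h
    · exact hx (h ▸ p.fst_mem_support_of_mem_edges hf1)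
    · exact hx (h ▸ p.snd_mem_support_of_mem_edges hf1)

/-- **Main theorem.** No odd `k` is a universal multiplier. -/
theorem result (k : ℕ) (hk : Odd k) :
    ¬ ∀ (V : Type) [Fintype V] [DecidableEq V] (G : SimpleGraph V) [DecidableRel G.Adj]
      (w : Sym2 V → ℕ),
      (∀ e ∈ G.edgeSet, k ∣ w e) →
      (∀ v : V, Even (∑ u ∈ G.neighborFinset v, w s(v, u))) →
      (∀ (X : Finset V) (x y : V), x ∈ X → y ∉ X → G.Adj x y →
        2 * w s(x, y) ≤
          ∑ p ∈ (Finset.univ : Finset (V × V)).filter
              (fun p => p.1 ∈ X ∧ p.2 ∉ X ∧ G.Adj p.1 p.2), w s(p.1, p.2)) →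
      ∃ (n : ℕ) (c : Fin n → Σ v : V, G.Walk v v),
        (∀ i, (c i).2.IsCycle) ∧
        ∀ e ∈ G.edgeSet,
          (Finset.univ.filter (fun i => e ∈ (c i).2.edges)).card = w e := by
  intro H
  obtain ⟨n, cy, hcy, hcount⟩ := H PV P (W k)
    (by
      intro e he
      unfold W
      refine Finset.dvd_sum fun f _ => ?_
      split_ifs
      · exact dvd_mul_right _ _
      · exact dvd_zero _)
    (W_eulerian k) (W_admissible k)
  refine no_cover_deg trivialSubdivision k hk
    (fun C => (univ.filter (fun i : Fin n => ES (cy i).2 = C)).card) ?_ ?_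
  · intro C hC v
    obtain ⟨i, hi⟩ := Finset.card_pos.mp (Nat.pos_of_ne_zero hC)
    rw [mem_filter] at hi
    rw [← hi.2]
    exact ES_deg (cy i).2 (hcy i) v
  · intro f
    have h1 := hcount s(src f, tgt f) (by
      rw [SimpleGraph.mem_edgeSet]
      exact ⟨f, rfl⟩)
    rw [W_edge] at h1
    have h2 : wt trivialSubdivision k f = k * c f :=
      wt_e trivialSubdivision k f 0 Nat.one_pos
    rw [h2, ← h1]
    have h3 := Finset.card_eq_sum_card_fiberwise
      (f := fun i : Fin n => ES (cy i).2)
      (s := univ.filter (fun i : Fin n => s(src f, tgt f) ∈ (cy i).2.edges))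
      (t := univ.filter (fun C : Finset PE => f ∈ C)) (by
        intro i hi
        rw [Finset.mem_coe, mem_filter] at hi
        rw [Finset.mem_coe, mem_filter]
        refine ⟨mem_univ _, ?_⟩
        unfold ES
        rw [mem_filter]
        exact ⟨mem_univ _, hi.2⟩)
    rw [h3]
    refine Finset.sum_congr rfl fun C hC => ?_
    congr 1
    ext i
    rw [mem_filter, mem_filter, mem_filter]
    constructor
    · rintro ⟨-, h4⟩
      refine ⟨⟨mem_univ _, ?_⟩, h4⟩
      have h5 : f ∈ ES (cy i).2 := by rw [h4]; exact (mem_filter.mp hC).2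
      unfold ES at h5
      exact (mem_filter.mp h5).2
    · rintro ⟨-, h4⟩
      exact ⟨mem_univ _, h4⟩

end Pool.Agent.Results.MP_48d738_co.NoOddMultiplier
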